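import Pool.Agent.K1H72.CD.Stm

/-! Coverage in the box from the separation lemma (project CD). -/

set_option autoImplicit false

namespace Pool.Agent.K1H24.CD

open H974 Finset Pool.Agent.K1H72.CD

theorem ends_in {m : ℕ} {g : Edg} (h : g ∈ boxE m) :
    ((-(m:ℤ) ≤ (src g).1 ∧ (src g).1 ≤ m) ∧ (-(m:ℤ) ≤ (src g).2 ∧ (src g).2 ≤ m)) ∧
    ((-(m:ℤ) ≤ (tgt g).1 ∧ (tgt g).1 ≤ m) ∧ (-(m:ℤ) ≤ (tgt g).2 ∧ (tgt g).2 ≤ m)) := by
  obtain ⟨x, y, c⟩ := g
  unfold boxE at h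
  cases c with
  | true =>
    rw [mem_RE_true] at h
    simp only [src_mk, tgt_true]
    omega
  | false =>
    rw [mem_RE_false] at h
    simp only [src_mk, tgt_false]
    omega

theorem inbox {m : ℕ} {G : Set Edg} (hG : G ⊆ ↑(boxE m)) {v : Vtx} (h : Reach G (0, 0) v) :
    (-(m:ℤ) ≤ v.1 ∧ v.1 ≤ m) ∧ (-(m:ℤ) ≤ v.2 ∧ v.2 ≤ m) := by
  induction h with
  | refl => simp
  | tail _ hs ih =>
    obtain ⟨g, he, h⟩ := hs
    have h1 := ends_in (by exact_mod_cast hG he : g ∈ boxE m)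
    rcases h with ⟨_, h⟩ | ⟨h, _⟩
    · rw [← h]; exact h1.2
    · rw [← h]; exact h1.1

theorem near {m : ℕ} {g : Edg} {v : Vtx} (hv : v = src g ∨ v = tgt g)
    (h : (-(m:ℤ) < v.1 ∧ v.1 < m) ∧ (-(m:ℤ) < v.2 ∧ v.2 < m)) : g ∈ boxE m := by
  obtain ⟨x, y, c⟩ := g
  unfold boxE
  cases c with
  | true =>
    rw [mem_RE_true]
    simp only [src_mk, tgt_true] at hv
    rcases hv with rfl | rfl
    · simp only at h; omega
    · simp only at h; omega
  | false =>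
    rw [mem_RE_false]
    simp only [src_mk, tgt_false] at hv
    rcases hv with rfl | rfl
    · simp only at h; omega
    · simp only at h; omega

theorem t_OR (h : S_COV) : S_OR := by
  intro m F _
  by_cases hU : U m ↑F
  · exact Or.inl hU
  by_cases hA : Arm m F
  · exact Or.inr (Or.inl hA)
  right; right
  have hsub : (((↑F : Set Edg) ∩ ↑(boxE m)) \ {e1}) ⊆ ↑(boxE m) :=
    fun g hg => hg.1.2
  have hin : ∀ v, Reach (((↑F : Set Edg) ∩ ↑(boxE m)) \ {e1}) (0, 0) v →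
      (-(m:ℤ) < v.1 ∧ v.1 < m) ∧ (-(m:ℤ) < v.2 ∧ v.2 < m) := by
    intro v hv
    have h1 := inbox hsub hv
    have h2 : ¬ onB m v := fun h3 => hA ⟨v, h3, hv.mono (fun g hg => hg.1)⟩
    unfold onB inR at h2
    simp only [not_and_or, not_or] at h2
    omega
  refine h _ {v | Reach (((↑F : Set Edg) ∩ ↑(boxE m)) \ {e1}) (0, 0) v} ?_ (Reach.refl _ _) hU ?_
  · refine Set.Finite.subset (Set.toFinite
      ((Set.Icc (-(m:ℤ)) m) ×ˢ (Set.Icc (-(m:ℤ)) m))) ?_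
    intro v hv
    have h1 := inbox hsub hv
    exact ⟨h1.1, h1.2⟩
  · intro g hg hgC
    simp only [Set.mem_setOf_eq] at hgC
    have hgB : g ∈ boxE m := by
      by_cases hs : Reach (((↑F : Set Edg) ∩ ↑(boxE m)) \ {e1}) (0, 0) (src g)
      · exact near (Or.inl rfl) (hin _ hs)
      · by_cases ht : Reach (((↑F : Set Edg) ∩ ↑(boxE m)) \ {e1}) (0, 0) (tgt g)
        · exact near (Or.inr rfl) (hin _ ht)
        · exact absurd (iff_of_false hs ht) hgC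
    refine ⟨by exact_mod_cast hgB, fun hF => hgC ?_⟩
    have hadj : Adj (((↑F : Set Edg) ∩ ↑(boxE m)) \ {e1}) (src g) (tgt g) :=
      ⟨g, ⟨⟨hF, by exact_mod_cast hgB⟩, hg⟩, Or.inl ⟨rfl, rfl⟩⟩
    exact ⟨fun hs => hs.trans hadj.reach, fun ht => ht.trans hadj.symm.reach⟩

end Pool.Agent.K1H24.CD
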